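import Pool.Agent.H5.EF.Main
import Pool.Agent.H5.EF.SGN
import Pool.Agent.H10.EF.BD
import Pool.Agent.H17.EF.FD
import Pool.Agent.H31.EF.DIF
import Pool.Agent.H48.EF.Topo
import Pool.Agent.H53.EF.NLE
import Pool.Agent.H53.EF.GLO
import Pool.Agent.H68.EF.EX
import Pool.Agent.H68.EF.GRO
import Pool.Agent.H7.EF.GS
import Pool.Agent.H79.EF.Lipg
import Pool.Agent.H98.EF.CNT
import Pool.Agent.H98.EF.PD

/-!
`MP_815fa1_an`, question Q1 (answer: yes).  For every `n ≥ 2` and `p > 1` (in particular for every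
subcritical `p`) the radial Emden-Fowler problem on hyperbolic space has exactly one global solution
for every initial value `α > 0`, and the number of its zeros is nondecreasing in `α`.
-/

set_option autoImplicit false

namespace Pool.Agent.Results.MP_815fa1_an.ZeroCountMonotone

open H5.EF

theorem sfun (m : ℕ) (hm : 1 ≤ m) : ∃ s : ℝ → ℝ, SFun m s := by
  obtain ⟨s, h1, h2, h3⟩ := H7.EF.t_GS1 m hm
  exact ⟨s, h1, h2, H7.EF.t_GS2 m s hm h1 h2, H7.EF.t_GS3 m s hm h1 h3⟩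

theorem loc : S_LOC := by
  have hFD : S_FD := H17.EF.t_FD
  have hEX : S_EX := H68.EF.t_EX
  have hGRO : S_GRO := H68.EF.t_GRO
  have hBD : S_BD := H10.EF.t_BD hFD
  have hNDZ : S_NDZ := H10.EF.t_NDZ hFD
  have hNLE : S_NLE := H53.EFp.t_NLE hFD hEX
  have hLNE : S_LNE := H53.EFp.t_LNE hEX
  have hLIPG : S_LIPG := H79.EF.t_LIPG hGRO hBD hFD
  have hDIF : S_DIF := H31.EF.t_DIF hGRO hLIPG hBD hFD
  have hPD : S_PD := H98.EF.t_PD hFD
  have hWD : S_WD := H98.EF.t_WD hFD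
  have hPPP : S_PPP := H10.EF.t_PPP hPD hNDZ
  have hSGN : S_SGN := H5.EF.Sgn.t_SGN hWD hPPP hNDZ
  have hTOP : S_TOP := H48.EF.t_TOP H48.EF.t_TPO H48.EF.t_TPC
  have hFAM : S_FAM := H79.EF.t_FAM hNLE hLNE hLIPG hDIF hNDZ hSGN sfun
  exact H79.EF.t_LOC hFAM hTOP hLIPG

theorem glo : S_GLO := by
  have hFD : S_FD := H17.EF.t_FD
  exact H53.EFp.t_GLO (H53.EFp.t_NLE hFD H68.EF.t_EX)
    (H79.EF.t_LIPG H68.EF.t_GRO (H10.EF.t_BD hFD) hFD)

/-- **The zero count of radial Emden-Fowler solutions on hyperbolic space is nondecreasing.** -/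
theorem result (n : ℕ) (p : ℝ) (hn : 2 ≤ n) (hp : 1 < p) :
    (∀ α : ℝ, 0 < α → ∃ u : ℝ → ℝ, IsSolution n p α u) ∧
    (∀ (α : ℝ) (u w : ℝ → ℝ), 0 < α → IsSolution n p α u → IsSolution n p α w →
      ∀ r, 0 ≤ r → u r = w r) ∧
    (∀ (α β : ℝ) (u w : ℝ → ℝ), 0 < α → α < β → IsSolution n p α u → IsSolution n p β w →
      zeroCount u ≤ zeroCount w) :=
  main_of glo loc H98.EF.t_CNT n p hn hp

end Pool.Agent.Results.MP_815fa1_an.ZeroCountMonotone
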